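import Pool.Agent.H51.EF.Main

/-!
# Prime elliptic Fermat numbers: curves with a rational point of order two

`W` is a nonsingular Weierstrass equation with integral coefficients, `P` a rational point, and for every
`n ≥ 1` the multiple `n • P` is the affine point `(A n / (D n)^2, B n / (D n)^3)` in lowest terms with
`D n ≥ 1` (so `P` has infinite order). If the curve has a rational point `T` of order two, then only
finitely many of the elliptic Fermat numbers `D (2^(k+1)) / D (2^k)` are prime.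
Paper: `/team-store/h51_ef_paper.md`.
-/

namespace Pool.Agent.Results.MP_7123b4_nt.TwoTorsion

theorem result (W : WeierstrassCurve ℤ) (hW : W.Δ ≠ 0)
    (P : (W.map (Int.castRingHom ℚ)).toAffine.Point) (A B : ℕ → ℤ) (D : ℕ → ℕ)
    (hD : ∀ n, 1 ≤ n → 1 ≤ D n ∧ IsCoprime (A n) (D n : ℤ) ∧ IsCoprime (B n) (D n : ℤ) ∧
      ∃ h, n • P = .some ((A n : ℚ) / (D n : ℚ) ^ 2) ((B n : ℚ) / (D n : ℚ) ^ 3) h)
    (T : (W.map (Int.castRingHom ℚ)).toAffine.Point) (hT : T ≠ 0) (h2 : 2 • T = 0) :
    {k : ℕ | ∃ p : ℕ, p.Prime ∧ D (2 ^ (k + 1)) = p * D (2 ^ k)}.Finite :=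
  H51.EF.fermat_fin W hW P A B D hD T hT h2

end Pool.Agent.Results.MP_7123b4_nt.TwoTorsion
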